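import Mathlib
import Pool.Agent.H14.PerfDef

set_option autoImplicit false

namespace Pool.Agent.Results.MP_7acd66_nt.Counter

open Pool.Agent.H14.PerfDef in
theorem result : ∃ n : ℕ, Odd n ∧ 1155 < n ∧ pd n ≤ 10 :=
  ⟨815634435, by decide, by norm_num, by rw [pd_eq]; norm_num⟩

end Pool.Agent.Results.MP_7acd66_nt.Counter
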